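import Pool.Agent.Results.MP_7aad9f_nt.JointLaw

/-!
# The law of `T (a, b, c)` over all abc-triples

All abc-triples `a + b = c`, `a ≤ b`, of whatever height are ordered by their radical. We have
`T = -2 √(log c) + Z / √(log c)` with `Z = log (c ^ 3 / rad (abc)) > 0`, and we show that `Z` has a
limiting distribution: the number of the triples with `rad (abc) ≤ X` is asymptotic to
`κ X ^ (2 / 3)`, the number of those of them with `Z ≤ s` to `G (s) X ^ (2 / 3)`, where `G (s) < κ`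
tends to `κ` for `s → ∞`. The triples with `T ≥ -(2 - δ) √(log c)`, among them those with `T ≥ 1`,
that is `rad (abc) ≤ c ^ (1 - 1 / √(log c))`, number only `O (X ^ (2 / 3 - ν))`.
-/

set_option autoImplicit false

namespace Pool.Agent.Results.MP_4ab349_nt.AllHeightsLaw

open Filter Topology

/-- the product of the distinct primes dividing `n` -/
def rad (n : ℕ) : ℕ := ∏ p ∈ n.primeFactors, p

/-- `T(a, b, c) = log (c / rad(abc)) / √(log c)` -/
noncomputable def T (a b c : ℕ) : ℝ :=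
  Real.log ((c : ℝ) / (rad (a * b * c) : ℝ)) / Real.sqrt (Real.log c)

/-- the abc-triples `(a, b, a + b)` of whatever height with `rad (abc) ≤ X`, given by the pairs
`(a, b)`, `1 ≤ a ≤ b` -/
def triples (X : ℝ) : Set (ℕ × ℕ) :=
  {t | 0 < t.1 ∧ t.1 ≤ t.2 ∧ Nat.Coprime t.1 t.2 ∧
    (rad (t.1 * t.2 * (t.1 + t.2)) : ℝ) ≤ X}

lemma rad_pos (n : ℕ) : 0 < rad n :=
  Finset.prod_pos fun _ hp => (Nat.prime_of_mem_primeFactors hp).pos

lemma eq_triples (X : ℝ) : triples X = Pool.Agent.Results.MP_7aad9f_nt.JointLaw.triples X := by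
  ext t
  exact ⟨fun h => ⟨⟨h.1, h.2.1, h.2.2.1⟩, h.2.2.2⟩, fun h => ⟨h.1.1, h.1.2.1, h.1.2.2, h.2⟩⟩

/-- `√(log c) (T + 2 √(log c)) = log (c ^ 3 / rad (abc))` -/
lemma T_eq {a b : ℕ} (ha : 0 < a) (hb : 0 < b) :
    Real.sqrt (Real.log ((a + b : ℕ) : ℝ)) *
      (T a b (a + b) + 2 * Real.sqrt (Real.log ((a + b : ℕ) : ℝ))) =
      Real.log (((a + b : ℕ) : ℝ) ^ 3 / (rad (a * b * (a + b)) : ℝ)) := by
  have hr : (0 : ℝ) < rad (a * b * (a + b)) := by exact_mod_cast rad_pos _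
  have hc : (1 : ℝ) < ((a + b : ℕ) : ℝ) := by
    have : 1 < a + b := by omega
    exact_mod_cast this
  have hc0 : (0 : ℝ) < ((a + b : ℕ) : ℝ) := by linarith
  have hl : 0 < Real.log ((a + b : ℕ) : ℝ) := Real.log_pos hc
  have hs : 0 < Real.sqrt (Real.log ((a + b : ℕ) : ℝ)) := Real.sqrt_pos.mpr hl
  have hss : Real.sqrt (Real.log ((a + b : ℕ) : ℝ)) * Real.sqrt (Real.log ((a + b : ℕ) : ℝ)) =
      Real.log ((a + b : ℕ) : ℝ) := Real.mul_self_sqrt hl.le
  unfold T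
  rw [mul_add, mul_div_cancel₀ _ hs.ne', Real.log_div hc0.ne' hr.ne',
    Real.log_div (by positivity) hr.ne', Real.log_pow]
  push_cast at hss ⊢
  linear_combination 2 * hss

/-- the radical of `abc` is less than `c ^ 3` -/
lemma rad_lt {a b : ℕ} (ha : 0 < a) (hb : 0 < b) : rad (a * b * (a + b)) < (a + b) ^ 3 := by
  have h4 : rad (a * b * (a + b)) ≤ a * b * (a + b) :=
    Nat.le_of_dvd (by positivity) (Nat.prod_primeFactors_dvd _)
  have h5 : a * b * (a + b) < (a + b) ^ 3 := by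
    have h6 : a * b < (a + b) * (a + b) := by nlinarith
    calc a * b * (a + b) < (a + b) * (a + b) * (a + b) :=
          Nat.mul_lt_mul_of_pos_right h6 (by omega)
      _ = _ := by ring
  omega

/-- **The law of `T` over all abc-triples.** There are a constant `κ > 0` and a function `G` such
that
(1) the number of the abc-triples with `rad (abc) ≤ X` is finite and asymptotic to `κ X ^ (2/3)`;
(2) `T > -2 √(log c)` always;
(3) for every `δ > 0` at most `C X ^ (2/3 - ν)` of them, `ν > 0`, satisfy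
`T ≥ -(2 - δ) √(log c)`;
(4) for some `ν > 0` at most `C X ^ (2/3 - ν)` of them violate `rad (abc) > c ^ (1 - 1/√(log c))`;
(5) for every `s` the number of those of them with `T ≤ -2 √(log c) + s / √(log c)` is asymptotic
to `G (s) X ^ (2/3)`, `G (s) < κ`, and `G (s) → κ` for `s → ∞`;
(6) for every `ψ : ℕ → ℝ` tending to infinity the number of those of them with
`T > -2 √(log c) + ψ (rad (abc)) / √(log c)` is `o (X ^ (2/3))`. -/
theorem result : ∃ (κ : ℝ) (G : ℝ → ℝ), 0 < κ ∧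
    (∀ X : ℝ, (triples X).Finite) ∧
    Tendsto (fun X : ℝ => ((triples X).ncard : ℝ) / X ^ ((2 : ℝ) / 3)) atTop (𝓝 κ) ∧
    (∀ a b : ℕ, 0 < a → 0 < b →
      -2 * Real.sqrt (Real.log ((a + b : ℕ) : ℝ)) < T a b (a + b)) ∧
    (∀ δ : ℝ, 0 < δ → ∃ ν C : ℝ, 0 < ν ∧ 0 < C ∧ ∀ X : ℝ, 1 ≤ X →
      ({t | t ∈ triples X ∧ -(2 - δ) * Real.sqrt (Real.log ((t.1 + t.2 : ℕ) : ℝ)) ≤
        T t.1 t.2 (t.1 + t.2)}.ncard : ℝ) ≤ C * X ^ (2 / 3 - ν)) ∧
    (∃ ν C : ℝ, 0 < ν ∧ 0 < C ∧ ∀ X : ℝ, 1 ≤ X →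
      ({t | t ∈ triples X ∧ (rad (t.1 * t.2 * (t.1 + t.2)) : ℝ) ≤
        ((t.1 + t.2 : ℕ) : ℝ) ^ (1 - 1 / Real.sqrt (Real.log ((t.1 + t.2 : ℕ) : ℝ)))}.ncard : ℝ) ≤
        C * X ^ (2 / 3 - ν)) ∧
    (∀ s : ℝ, G s < κ ∧ Tendsto (fun X : ℝ =>
      ({t | t ∈ triples X ∧ T t.1 t.2 (t.1 + t.2) ≤
        -2 * Real.sqrt (Real.log ((t.1 + t.2 : ℕ) : ℝ)) +
          s / Real.sqrt (Real.log ((t.1 + t.2 : ℕ) : ℝ))}.ncard : ℝ) /
        X ^ ((2 : ℝ) / 3)) atTop (𝓝 (G s))) ∧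
    Tendsto G atTop (𝓝 κ) ∧
    (∀ ψ : ℕ → ℝ, Tendsto ψ atTop atTop → Tendsto (fun X : ℝ =>
      ({t | t ∈ triples X ∧ -2 * Real.sqrt (Real.log ((t.1 + t.2 : ℕ) : ℝ)) +
          ψ (rad (t.1 * t.2 * (t.1 + t.2))) / Real.sqrt (Real.log ((t.1 + t.2 : ℕ) : ℝ)) <
        T t.1 t.2 (t.1 + t.2)}.ncard : ℝ) /
        X ^ ((2 : ℝ) / 3)) atTop (𝓝 0)) := by
  obtain ⟨c₀, κ, hc₀, hκ, -, -, hfin, htot, -, -, hG, hGlim, hψ⟩ :=
    Pool.Agent.Results.MP_7aad9f_nt.JointLaw.result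
  -- `T` in terms of `log (c ^ 3 / rad)`
  have key : ∀ (a b : ℕ) (s : ℝ), 0 < a → 0 < b →
      (T a b (a + b) ≤ -2 * Real.sqrt (Real.log ((a + b : ℕ) : ℝ)) +
        s / Real.sqrt (Real.log ((a + b : ℕ) : ℝ)) ↔
      ((a + b : ℕ) : ℝ) ≤ Real.exp (s / 3) * (rad (a * b * (a + b)) : ℝ) ^ ((1 : ℝ) / 3)) := by
    intro a b s ha hb
    have hr : (0 : ℝ) < rad (a * b * (a + b)) := by exact_mod_cast rad_pos _
    have hc : (1 : ℝ) < ((a + b : ℕ) : ℝ) := by
      have : 1 < a + b := by omega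
      exact_mod_cast this
    have hc0 : (0 : ℝ) < ((a + b : ℕ) : ℝ) := by linarith
    have hl : 0 < Real.log ((a + b : ℕ) : ℝ) := Real.log_pos hc
    have hs : 0 < Real.sqrt (Real.log ((a + b : ℕ) : ℝ)) := Real.sqrt_pos.mpr hl
    have h1 := T_eq ha hb
    set q := Real.sqrt (Real.log ((a + b : ℕ) : ℝ)) with hq
    have h2 : T a b (a + b) ≤ -2 * q + s / q ↔
        Real.log (((a + b : ℕ) : ℝ) ^ 3 / (rad (a * b * (a + b)) : ℝ)) ≤ s := by
      rw [← h1]
      constructor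
      · intro h
        have h3 : T a b (a + b) + 2 * q ≤ s / q := by linarith
        rw [le_div_iff₀ hs] at h3
        linarith
      · intro h
        have h3 : (T a b (a + b) + 2 * q) * q ≤ s := by linarith
        rw [← le_div_iff₀ hs] at h3
        linarith
    rw [h2, Real.log_le_iff_le_exp (by positivity), div_le_iff₀ hr]
    have h5 : (Real.exp (s / 3) * (rad (a * b * (a + b)) : ℝ) ^ ((1 : ℝ) / 3)) ^ 3 =
        Real.exp s * rad (a * b * (a + b)) := by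
      have e1 : ((rad (a * b * (a + b)) : ℝ) ^ ((1 : ℝ) / 3)) ^ 3 = rad (a * b * (a + b)) := by
        rw [← Real.rpow_natCast, ← Real.rpow_mul hr.le]
        norm_num
      have e2 : Real.exp (s / 3) ^ 3 = Real.exp s := by
        rw [← Real.exp_nat_mul]
        congr 1
        push_cast
        ring
      rw [mul_pow, e1, e2]
    rw [← h5]
    exact pow_le_pow_iff_left₀ hc0.le (by positivity) (by norm_num)
  have hmem : ∀ (X : ℝ) (t : ℕ × ℕ), t ∈ triples X → 0 < t.1 ∧ 0 < t.2 := fun X t h =>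
    ⟨h.1, lt_of_lt_of_le h.1 h.2.1⟩
  have hsave : ∀ δ : ℝ, 0 < δ → ∃ ν C : ℝ, 0 < ν ∧ 0 < C ∧ ∀ X : ℝ, 1 ≤ X →
      ({t | t ∈ triples X ∧ -(2 - δ) * Real.sqrt (Real.log ((t.1 + t.2 : ℕ) : ℝ)) ≤
        T t.1 t.2 (t.1 + t.2)}.ncard : ℝ) ≤ C * X ^ (2 / 3 - ν) := by
    intro δ₀ hδ₀
    -- we may take `δ ≤ 1`
    obtain ⟨δ, hδ, hδ1, hδδ⟩ : ∃ δ : ℝ, 0 < δ ∧ δ ≤ 1 ∧ δ ≤ δ₀ :=
      ⟨min δ₀ 1, lt_min hδ₀ one_pos, min_le_right _ _, min_le_left _ _⟩
    obtain ⟨-, -, -, hmain⟩ := Pool.Agent.Y911.AA.main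
    have hM : (1 : ℝ) / 3 < 1 / (3 - δ) := by
      rw [div_lt_div_iff₀ (by norm_num) (by linarith)]
      linarith
    obtain ⟨ν, C, hν, hC, h⟩ := hmain (1 / (3 - δ)) hM
    refine ⟨ν, C, hν, hC, fun X hX => le_trans ?_ (h X hX)⟩
    have hVfin : (Pool.Agent.Y911.AA.viol (1 / (3 - δ)) X).Finite :=
      (Pool.Agent.Y911.AA.triples_finite' X).subset fun p hp => hp.1
    refine Nat.cast_le.2 (Set.ncard_le_ncard ?_ hVfin)
    rintro ⟨a, b⟩ ⟨ht, hT⟩
    obtain ⟨ha, hb⟩ := hmem X _ ht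
    simp only at ha hb hT
    have hr : (0 : ℝ) < rad (a * b * (a + b)) := by exact_mod_cast rad_pos _
    have hc : (1 : ℝ) < ((a + b : ℕ) : ℝ) := by
      have : 1 < a + b := by omega
      exact_mod_cast this
    have hc0 : (0 : ℝ) < ((a + b : ℕ) : ℝ) := by linarith
    have hl : 0 < Real.log ((a + b : ℕ) : ℝ) := Real.log_pos hc
    have hs : 0 < Real.sqrt (Real.log ((a + b : ℕ) : ℝ)) := Real.sqrt_pos.mpr hl
    have h1 := T_eq ha hb
    have hss : Real.sqrt (Real.log ((a + b : ℕ) : ℝ)) * Real.sqrt (Real.log ((a + b : ℕ) : ℝ)) =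
      Real.log ((a + b : ℕ) : ℝ) := Real.mul_self_sqrt hl.le
    set q := Real.sqrt (Real.log ((a + b : ℕ) : ℝ)) with hq
    have h2 : δ * Real.log ((a + b : ℕ) : ℝ) ≤
        Real.log (((a + b : ℕ) : ℝ) ^ 3 / (rad (a * b * (a + b)) : ℝ)) := by
      rw [← h1, ← hss]
      have h3 : δ * q ≤ T a b (a + b) + 2 * q := by nlinarith
      calc δ * (q * q) = q * (δ * q) := by ring
        _ ≤ q * (T a b (a + b) + 2 * q) := mul_le_mul_of_nonneg_left h3 hs.le
    rw [Real.log_div (by positivity) hr.ne', Real.log_pow] at h2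
    push_cast at h2
    refine ⟨ht, ?_⟩
    have h4 : Real.log (rad (a * b * (a + b)) : ℝ) ≤ (3 - δ) * Real.log ((a + b : ℕ) : ℝ) := by
      push_cast
      linarith
    have h5 : Real.log ((rad (a * b * (a + b)) : ℝ) ^ (1 / (3 - δ))) ≤
        Real.log ((a + b : ℕ) : ℝ) := by
      rw [Real.log_rpow hr, div_mul_eq_mul_div, one_mul, div_le_iff₀ (by linarith)]
      linarith
    exact (Real.log_le_log_iff (by positivity) hc0).1 h5
  refine ⟨κ, fun s => c₀ * Pool.Agent.Results.MP_7aad9f_nt.JointLaw.distr (Real.exp (s / 3)), hκ,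
    fun X => ?_, ?_, ?_, hsave, ?_, fun s => ⟨(hG _).1, ?_⟩, ?_, fun ψ hψ' => ?_⟩
  · rw [eq_triples]
    exact hfin X
  · simp only [eq_triples]
    exact htot
  · intro a b ha hb
    have hr : (0 : ℝ) < rad (a * b * (a + b)) := by exact_mod_cast rad_pos _
    have hc : (1 : ℝ) < ((a + b : ℕ) : ℝ) := by
      have : 1 < a + b := by omega
      exact_mod_cast this
    have hl : 0 < Real.log ((a + b : ℕ) : ℝ) := Real.log_pos hc
    have hs : 0 < Real.sqrt (Real.log ((a + b : ℕ) : ℝ)) := Real.sqrt_pos.mpr hl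
    have h1 := T_eq ha hb
    have h2 : 0 < Real.log (((a + b : ℕ) : ℝ) ^ 3 / (rad (a * b * (a + b)) : ℝ)) := by
      apply Real.log_pos
      rw [one_lt_div hr]
      exact_mod_cast rad_lt ha hb
    rw [← h1] at h2
    have h3 := (mul_pos_iff_of_pos_left hs).1 h2
    linarith
  · obtain ⟨ν, C, hν, hC, h⟩ := hsave 2 two_pos
    refine ⟨ν, C, hν, hC, fun X hX => le_trans ?_ (h X hX)⟩
    refine Nat.cast_le.2 (Set.ncard_le_ncard ?_ ?_)
    · rintro ⟨a, b⟩ ⟨ht, hT⟩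
      obtain ⟨ha, hb⟩ := hmem X _ ht
      simp only at ha hb hT
      refine ⟨ht, ?_⟩
      have hr : (0 : ℝ) < rad (a * b * (a + b)) := by exact_mod_cast rad_pos _
      have hc : (1 : ℝ) < ((a + b : ℕ) : ℝ) := by
        have : 1 < a + b := by omega
        exact_mod_cast this
      have hc0 : (0 : ℝ) < ((a + b : ℕ) : ℝ) := by linarith
      have hl : 0 < Real.log ((a + b : ℕ) : ℝ) := Real.log_pos hc
      have hs : 0 < Real.sqrt (Real.log ((a + b : ℕ) : ℝ)) := Real.sqrt_pos.mpr hl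
      have h6 : (rad (a * b * (a + b)) : ℝ) ≤ ((a + b : ℕ) : ℝ) := by
        refine hT.trans ?_
        calc ((a + b : ℕ) : ℝ) ^ (1 - 1 / Real.sqrt (Real.log ((a + b : ℕ) : ℝ)))
            ≤ ((a + b : ℕ) : ℝ) ^ (1 : ℝ) := by
              apply Real.rpow_le_rpow_of_exponent_le hc.le
              have : 0 ≤ 1 / Real.sqrt (Real.log ((a + b : ℕ) : ℝ)) := by positivity
              linarith
          _ = _ := Real.rpow_one _
      show -(2 - 2) * Real.sqrt (Real.log ((a + b : ℕ) : ℝ)) ≤ T a b (a + b)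
      rw [sub_self, neg_zero, zero_mul]
      exact div_nonneg (Real.log_nonneg (by rwa [one_le_div hr])) hs.le
    · exact (hfin X).subset fun p hp => by
        have := hp.1
        rwa [eq_triples] at this
  · refine (hG (Real.exp (s / 3))).2.congr fun X => ?_
    congr 3
    ext ⟨a, b⟩
    constructor
    · rintro ⟨h1, h2⟩
      rw [← eq_triples] at h1
      exact ⟨h1, (key a b s (hmem X _ h1).1 (hmem X _ h1).2).2 h2⟩
    · rintro ⟨h1, h2⟩
      exact ⟨by rwa [← eq_triples], (key a b s (hmem X _ h1).1 (hmem X _ h1).2).1 h2⟩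
  · refine hGlim.comp (Real.tendsto_exp_atTop.comp ?_)
    exact tendsto_id.atTop_div_const (by norm_num)
  · have hψ2 : Tendsto (fun n : ℕ => Real.exp (ψ n / 3)) atTop atTop :=
      Real.tendsto_exp_atTop.comp (hψ'.atTop_div_const (by norm_num))
    refine (hψ _ hψ2).congr fun X => ?_
    congr 3
    ext ⟨a, b⟩
    constructor
    · rintro ⟨h1, h2⟩
      rw [← eq_triples] at h1
      refine ⟨h1, ?_⟩
      rw [← not_le, key a b _ (hmem X _ h1).1 (hmem X _ h1).2, not_le]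
      exact h2
    · rintro ⟨h1, h2⟩
      refine ⟨by rwa [← eq_triples], ?_⟩
      rw [← not_le, key a b _ (hmem X _ h1).1 (hmem X _ h1).2, not_le] at h2
      exact h2

end Pool.Agent.Results.MP_4ab349_nt.AllHeightsLaw
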