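import Pool.Agent.Y913.Wm.Pr

/-!
For every `n` and `ε > 0` there are `θ < 1` and `C` such that for every `X ≥ 1` at most
`C * X ^ ε` abc-triples `(a, b, c)` of any height with at most `n` prime factors and
`rad (abc) ≤ X` have `T (a, b, c) ≥ θ * √(log c)`.
-/

set_option autoImplicit false

namespace Pool.Agent.Results.MP_4ab349_nt.LargeQualityRare

/-- the radical: the product of the distinct primes dividing `m` -/
def rad (m : ℕ) : ℕ := ∏ p ∈ m.primeFactors, p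

/-- `T (a, b, c) = log (c / rad (abc)) / √(log c)` -/
noncomputable def T (a b c : ℕ) : ℝ :=
  Real.log ((c : ℝ) / (rad (a * b * c) : ℝ)) / Real.sqrt (Real.log c)

/-- the abc-triples with at most `n` primes dividing `abc`, `rad (abc) ≤ X` and
`T (a, b, c) ≥ θ * √(log c)` -/
def largeT (n : ℕ) (θ X : ℝ) : Set (ℕ × ℕ × ℕ) :=
  {t | 0 < t.1 ∧ 0 < t.2.1 ∧ 0 < t.2.2 ∧ t.1 + t.2.1 = t.2.2 ∧
    Nat.gcd t.1 (Nat.gcd t.2.1 t.2.2) = 1 ∧ (t.1 * t.2.1 * t.2.2).primeFactors.card ≤ n ∧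
    (rad (t.1 * t.2.1 * t.2.2) : ℝ) ≤ X ∧
    θ * Real.sqrt (Real.log t.2.2) ≤ T t.1 t.2.1 t.2.2}

theorem result (n : ℕ) (ε : ℝ) (hε : 0 < ε) : ∃ θ C : ℝ, 0 < θ ∧ θ < 1 ∧ 0 < C ∧
    ∀ X : ℝ, 1 ≤ X → (largeT n θ X).Finite ∧
      ((largeT n θ X).ncard : ℝ) ≤ C * X ^ ε := by
  classical
  obtain ⟨K, C, hK, hC, h⟩ := Pool.Agent.Y913.Wm.viol_eps n ε hε
  obtain ⟨L, hL⟩ : ∃ L : ℝ, L = max K 2 := ⟨_, rfl⟩
  have hL2 : 2 ≤ L := by rw [hL]; exact le_max_right _ _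
  have hKL : K ≤ L := by rw [hL]; exact le_max_left _ _
  have hL0 : 0 < L := by linarith
  have hLi : 1 / L ≤ 1 / 2 := one_div_le_one_div_of_le (by norm_num) hL2
  have hLp : 0 < 1 / L := by positivity
  refine ⟨1 - 1 / L, C, by linarith, by linarith, hC, ?_⟩
  intro X hX
  let f : ℕ × ℕ × ℕ → ℕ × ℕ := fun t => (t.1, t.2.1)
  have hinj : Set.InjOn f (largeT n (1 - 1 / L) X) := by
    rintro ⟨a, b, c⟩ h1 ⟨a', b', c'⟩ h2 he
    obtain ⟨-, -, -, h3, -⟩ := h1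
    obtain ⟨-, -, -, h4, -⟩ := h2
    simp only [f, Prod.mk.injEq] at he
    simp only at h3 h4
    obtain ⟨rfl, rfl⟩ := he
    rw [h3] at h4
    rw [h4]
  have hS := Pool.Agent.Y913.Sm.finite_of_bound
    (S := {q | Pool.Agent.Y913.Sm.Viol n K X q}) (N := C * X ^ ε)
    (fun Q hQ => h X hX Q hQ)
  have hsub : f '' (largeT n (1 - 1 / L) X) ⊆ {q | Pool.Agent.Y913.Sm.Viol n K X q} := by
    rintro q ⟨⟨a, b, c⟩, ⟨h1, h2, h3, h4, h5, h6, h7, h8⟩, rfl⟩
    simp only at h1 h2 h3 h4 h5 h6 h7 h8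
    subst h4
    have hco : Nat.Coprime a b := by
      have h9 : Nat.gcd a b ∣ Nat.gcd a (Nat.gcd b (a + b)) :=
        Nat.dvd_gcd (Nat.gcd_dvd_left a b) (Nat.dvd_gcd (Nat.gcd_dvd_right a b)
          (Nat.dvd_add (Nat.gcd_dvd_left a b) (Nat.gcd_dvd_right a b)))
      rw [h5] at h9
      exact Nat.dvd_one.mp h9
    refine ⟨h1, h2, hco, h6, h7, ?_⟩
    have hr0 : 1 ≤ rad (a * b * (a + b)) :=
      Finset.prod_pos (fun _ h => (Nat.prime_of_mem_primeFactors h).pos)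
    have hr : (1 : ℝ) ≤ rad (a * b * (a + b)) := by exact_mod_cast hr0
    have hrp : (0 : ℝ) < rad (a * b * (a + b)) := by linarith
    have hc1 : (1 : ℝ) < ((a + b : ℕ) : ℝ) := by exact_mod_cast (by omega : 1 < a + b)
    have hcp : (0 : ℝ) < ((a + b : ℕ) : ℝ) := by linarith
    have hlc : 0 < Real.log ((a + b : ℕ) : ℝ) := Real.log_pos hc1
    have hsq : 0 < Real.sqrt (Real.log ((a + b : ℕ) : ℝ)) := Real.sqrt_pos.mpr hlc
    unfold T at h8
    rw [le_div_iff₀ hsq, mul_assoc, Real.mul_self_sqrt hlc.le,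
      Real.log_div hcp.ne' hrp.ne'] at h8
    have h9 : Real.log (rad (a * b * (a + b)) : ℝ) ≤ 1 / L * Real.log ((a + b : ℕ) : ℝ) := by
      linarith
    have h10 : L * Real.log (rad (a * b * (a + b)) : ℝ) ≤ Real.log ((a + b : ℕ) : ℝ) := by
      have := mul_le_mul_of_nonneg_left h9 hL0.le
      rw [← mul_assoc, mul_one_div_cancel hL0.ne', one_mul] at this
      exact this
    have h11 : (rad (a * b * (a + b)) : ℝ) ^ L ≤ ((a + b : ℕ) : ℝ) := by
      rw [← Real.log_le_log_iff (by positivity) hcp, Real.log_rpow hrp]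
      exact h10
    exact (Real.rpow_le_rpow_of_exponent_le hr hKL).trans h11
  constructor
  · exact Set.Finite.of_finite_image (hS.1.subset hsub) hinj
  · have h1 := Set.ncard_le_ncard hsub hS.1
    rw [Set.InjOn.ncard_image hinj] at h1
    exact le_trans (by exact_mod_cast h1) hS.2

end Pool.Agent.Results.MP_4ab349_nt.LargeQualityRare
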