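import Pool.Agent.Results.MP_4ab349_nt.LargeQualityRare
import Pool.Agent.Y854.GM.Win

/-!
# The quality of the triples with few prime factors and radical in windows

Let `v ≥ 1` be a sequence with exponent of convergence at most `τ` (for `v_k = k ^ q` this is `1 / q`, for `v_k = q ^ k` or
`k!` it is `0`) and `θ < 1`. For all `α > 0` outside a set of Hausdorff dimension at most `τ / (1 - θ)` and all `n`
there is `ρ < 1` such that for all but finitely many `k` ALL coprime triples `a + b = c` with at most `n` primes dividing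
`abc` and `|rad (abc) - α v_k| ≤ v_k ^ θ` satisfy `T (a, b, c) < ρ √(log c)`, `T (a, b, c) = log (c / rad (abc)) / √(log c)`.
-/

set_option autoImplicit false

open Filter Topology
open scoped ENNReal

namespace Pool.Agent.Results.MP_4ab349_nt.RadicalWindowsFewPrimes

open LargeQualityRare (rad T largeT)

/-- the exponent of convergence of the sequence `v` is at most `τ` -/
def ExpLe (v : ℕ → ℝ) (τ : ℝ) : Prop := ∀ t : ℝ, τ < t → Summable (fun n : ℕ => (v n) ^ (-t))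

/-- coprime positive `a + b = c` with at most `n` primes dividing `abc` -/
def Triple (n a b c : ℕ) : Prop :=
  0 < a ∧ 0 < b ∧ 0 < c ∧ a + b = c ∧ Nat.gcd a (Nat.gcd b c) = 1 ∧ (a * b * c).primeFactors.card ≤ n

lemma one_n (n : ℕ) {v : ℕ → ℝ} {τ θ : ℝ} (hv : ∀ k, 1 ≤ v k) (hτ : 0 ≤ τ) (hE : ExpLe v τ) (hθ1 : θ < 1) :
    ∃ E : Set ℝ, dimH E ≤ ENNReal.ofReal (τ / (1 - θ)) ∧ ∀ α : ℝ, 0 < α → α ∉ E → ∃ (K : ℝ) (k₀ : ℕ),
      0 < K ∧ K < 1 ∧ ∀ k : ℕ, k₀ ≤ k → ∀ a b c : ℕ, Triple n a b c →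
        |(rad (a * b * c) : ℝ) - α * v k| ≤ (v k) ^ θ → T a b c < K * Real.sqrt (Real.log c) := by
  have hall : ∀ j : ℕ, ∃ (K : ℝ) (E : Set ℝ), 0 < K ∧ K < 1 ∧
      dimH E ≤ ENNReal.ofReal ((1 / ((j : ℝ) + 1) + τ) / (1 - θ)) ∧
      ∀ α : ℝ, 0 < α → α ∉ E → ∃ k₀ : ℕ, ∀ k : ℕ, k₀ ≤ k →
        ∀ t ∈ {t : ℕ × ℕ × ℕ | Triple n t.1 t.2.1 t.2.2 ∧ K * Real.sqrt (Real.log t.2.2) ≤ T t.1 t.2.1 t.2.2},
        (v k) ^ θ < |(rad (t.1 * t.2.1 * t.2.2) : ℝ) - α * v k| := by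
    intro j
    obtain ⟨K, C, hK, hK1, hC, h⟩ := LargeQualityRare.result n (1 / ((j : ℝ) + 1)) (by positivity)
    obtain ⟨E, h3, h4⟩ := Pool.Agent.Y854.GM.windows
      {t : ℕ × ℕ × ℕ | Triple n t.1 t.2.1 t.2.2 ∧ K * Real.sqrt (Real.log t.2.2) ≤ T t.1 t.2.1 t.2.2}
      (fun t => (rad (t.1 * t.2.1 * t.2.2) : ℝ)) hv hτ hE (s := 1 / ((j : ℝ) + 1)) (by positivity) hθ1
      (fun ε hε => by
        refine ⟨C, fun X hX => ?_⟩
        have hset : {t | t ∈ {t : ℕ × ℕ × ℕ | Triple n t.1 t.2.1 t.2.2 ∧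
            K * Real.sqrt (Real.log t.2.2) ≤ T t.1 t.2.1 t.2.2} ∧ (rad (t.1 * t.2.1 * t.2.2) : ℝ) ≤ X} =
            largeT n K X := by
          ext t
          constructor
          · rintro ⟨⟨⟨h1, h2, h5, h6, h7, h8⟩, h9⟩, h10⟩
            exact ⟨h1, h2, h5, h6, h7, h8, h10, h9⟩
          · rintro ⟨h1, h2, h5, h6, h7, h8, h10, h9⟩
            exact ⟨⟨⟨h1, h2, h5, h6, h7, h8⟩, h9⟩, h10⟩
        rw [hset]
        obtain ⟨h5, h6⟩ := h X hX
        refine ⟨h5, h6.trans ?_⟩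
        apply mul_le_mul_of_nonneg_left _ hC.le
        exact Real.rpow_le_rpow_of_exponent_le hX (by linarith))
    exact ⟨K, E, hK, hK1, h3, h4⟩
  choose K E hK hK1 h1 h2 using hall
  have hlim : Tendsto (fun m : ℕ => ENNReal.ofReal ((1 / ((m : ℝ) + 1) + τ) / (1 - θ))) atTop
      (𝓝 (ENNReal.ofReal ((0 + τ) / (1 - θ)))) :=
    ENNReal.tendsto_ofReal ((tendsto_one_div_add_atTop_nhds_zero_nat.add_const τ).div_const (1 - θ))
  rw [zero_add] at hlim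
  refine ⟨⋂ m, E m, ge_of_tendsto' hlim fun m => (dimH_mono (Set.iInter_subset _ m)).trans (h1 m),
    fun α hα hαE => ?_⟩
  rw [Set.mem_iInter] at hαE
  push Not at hαE
  obtain ⟨j, hj⟩ := hαE
  obtain ⟨k₀, hk⟩ := h2 j α hα hj
  refine ⟨K j, k₀, hK j, hK1 j, fun k hk1 a b c habc hw => ?_⟩
  by_contra hcon
  rw [not_lt] at hcon
  exact absurd hw (not_le.2 (hk k hk1 (a, b, c) ⟨habc, hcon⟩))

/-- **Theorem.** Let `v ≥ 1` be a sequence of exponent of convergence at most `τ ≥ 0` and `θ < 1`. There is a set `E` of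
Hausdorff dimension at most `τ / (1 - θ)` such that for each `α > 0` outside `E` and each `n` there are `K < 1`
and `k₀` such that for all `k ≥ k₀` ALL coprime triples `a + b = c` with at most `n` primes dividing `abc` and
`|rad (abc) - α v_k| ≤ v_k ^ θ` satisfy `T (a, b, c) < K √(log c)`. The sequences `v_k = (k + 1) ^ q` and `v_k = q ^ k` have exponent
of convergence at most `1 / q` and `0`. -/
theorem result :
    (∀ (v : ℕ → ℝ) (τ θ : ℝ), (∀ n, 1 ≤ v n) → 0 ≤ τ → ExpLe v τ → θ < 1 →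
      ∃ E : Set ℝ, dimH E ≤ ENNReal.ofReal (τ / (1 - θ)) ∧ ∀ α : ℝ, 0 < α → α ∉ E → ∀ n : ℕ,
        ∃ (K : ℝ) (k₀ : ℕ), 0 < K ∧ K < 1 ∧ ∀ k : ℕ, k₀ ≤ k → ∀ a b c : ℕ, Triple n a b c →
          |(rad (a * b * c) : ℝ) - α * v k| ≤ (v k) ^ θ → T a b c < K * Real.sqrt (Real.log c)) ∧
    (∀ q : ℝ, 0 < q → ExpLe (fun n : ℕ => ((n : ℝ) + 1) ^ q) (1 / q)) ∧
    (∀ q : ℝ, 1 < q → ExpLe (fun n : ℕ => q ^ n) 0) := by
  refine ⟨fun v τ θ hv hτ hE hθ1 => ?_,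
    fun κ hκ => Pool.Agent.Y854.GM.expLe_pow κ hκ, fun κ hκ => Pool.Agent.Y854.GM.expLe_geom κ hκ⟩
  have hall : ∀ i : ℕ, _ := fun i => one_n i hv hτ hE hθ1
  choose E hE1 hE2 using hall
  refine ⟨⋃ i, E i, ?_, fun α hα hαE n => ?_⟩
  · rw [dimH_iUnion]
    exact iSup_le hE1
  · rw [Set.mem_iUnion] at hαE
    push Not at hαE
    exact hE2 n α hα (hαE n)

end Pool.Agent.Results.MP_4ab349_nt.RadicalWindowsFewPrimes
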