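import Pool.Agent.Y854.AB.Count
import Pool.Agent.Y854.GM.Rate

/-!
# `T(a, b, c)` is negative for all the abc-triples with `c` in short windows around a thin sequence

Let `v ≥ 1` be any sequence with exponent of convergence at most `τ` (for `v_n = n ^ κ` this is `1 / κ`, for
`v_n = b ^ n` or `n!` it is `0`) and `0 ≤ θ < 1`. For all `α > 0` outside a set of Hausdorff dimension at most
`(15 / 28 + τ) / (1 - θ)` and all but finitely many `n`, EVERY abc-triple with `|c - α v_n| ≤ v_n ^ θ` has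
`T(a, b, c) < 0`, that is `rad(abc) > c`. More generally `T(a, b, c) < - η √(log c) - K` for every `0 ≤ η < 7 / 9` and
every `K`, that is `rad(abc) > c ^ (1 + η)` with any constant, when `15 / 28` is replaced by an explicit exponent
`f (η) < 1`. The same holds for the triples with a member `m` in the window and `c ≤ m ^ A`, with `A f(η)` instead
of `f (η)`.
-/

set_option autoImplicit false

namespace Pool.Agent.Results.MP_4ab349_nt.SequenceMembers

open Finset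

/-- the product of the primes dividing `n` -/
def rad (n : ℕ) : ℕ := ∏ p ∈ n.primeFactors, p

/-- `T(a, b, c) = log (c / rad(abc)) / √(log c)` -/
noncomputable def T (a b c : ℕ) : ℝ :=
  Real.log ((c : ℝ) / (rad (a * b * c) : ℝ)) / Real.sqrt (Real.log c)

/-- increasing from `15 / 28` for `η = 0` to `1` for `η = 7 / 9`: equal to `5 (10 η + 9) / 84` for `η ≤ 1 / 2` and to
`(9 η + 8) / 15` for `η > 1 / 2` -/
noncomputable def f (η : ℝ) : ℝ := if η ≤ 1 / 2 then 5 * (10 * η + 9) / 84 else (9 * η + 8) / 15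

/-- every abc-triple `(a, b, a + b)` with `a + b ≤ m ^ A` one of whose members is `m` satisfies
`T(a, b, a + b) < - η √(log (a + b)) - K` -/
def Good (A η K : ℝ) (m : ℕ) : Prop :=
  ∀ a b : ℕ, 0 < a → 0 < b → Nat.Coprime a b → (a = m ∨ b = m ∨ a + b = m) →
    ((a + b : ℕ) : ℝ) ≤ (m : ℝ) ^ A →
      T a b (a + b) < - η * Real.sqrt (Real.log ((a + b : ℕ) : ℝ)) - K / Real.sqrt (Real.log ((a + b : ℕ) : ℝ))

/-- the exponent of convergence of the sequence `v` is at most `τ` -/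
def ExpLe (v : ℕ → ℝ) (τ : ℝ) : Prop := ∀ t : ℝ, τ < t → Summable (fun n : ℕ => (v n) ^ (-t))

lemma Fx_eq (η : ℝ) (h0 : 0 ≤ η) (h1 : η < 7 / 9) : Pool.Agent.W221.ABC7.Fx (1 + η) = f η := by
  unfold Pool.Agent.W221.ABC7.Fx f
  rcases h0.eq_or_lt with h | h
  · subst h
    norm_num
  · rw [if_neg (show ¬ (1 + η ≤ 2 / 3) by linarith), if_neg (show ¬ (1 + η ≤ 1) by linarith)]
    by_cases h2 : η ≤ 1 / 2
    · rw [if_pos (show 1 + η ≤ 3 / 2 by linarith), if_pos h2]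
      ring
    · rw [if_neg (show ¬ (1 + η ≤ 3 / 2) by linarith), if_pos (show 1 + η ≤ 16 / 9 by linarith), if_neg h2]
      ring

lemma rad_pos (n : ℕ) : 0 < rad n :=
  Finset.prod_pos fun _ hp => (Nat.prime_of_mem_primeFactors hp).pos

lemma good_of (A η K : ℝ) (m : ℕ) (h : m ∉ Pool.Agent.Y854.AB.Bad (Real.exp K) (1 + η) A) : Good A η K m := by
  intro a b ha hb hab hmem hht
  have hc2 : 2 ≤ a + b := by omega
  have hc : (1 : ℝ) < ((a + b : ℕ) : ℝ) := by exact_mod_cast (by omega : 1 < a + b)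
  have hc0 : (0 : ℝ) < ((a + b : ℕ) : ℝ) := by linarith
  have hl : 0 < Real.log ((a + b : ℕ) : ℝ) := Real.log_pos hc
  have hs : 0 < Real.sqrt (Real.log ((a + b : ℕ) : ℝ)) := Real.sqrt_pos.mpr hl
  have hr : (0 : ℝ) < (rad (a * b * (a + b)) : ℝ) := by exact_mod_cast rad_pos _
  have hbig : Real.exp K * ((a + b : ℕ) : ℝ) ^ (1 + η) < (rad (a * b * (a + b)) : ℝ) := by
    by_contra hcon
    push Not at hcon
    exact h ⟨a, b, ha, hb, hab, hmem, hht, hcon⟩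
  have h1 := Real.log_lt_log (by positivity) hbig
  rw [Real.log_mul (Real.exp_pos K).ne' (Real.rpow_pos_of_pos hc0 _).ne', Real.log_exp,
    Real.log_rpow hc0] at h1
  unfold T
  rw [Real.log_div hc0.ne' hr.ne', div_lt_iff₀ hs]
  have hss : Real.sqrt (Real.log ((a + b : ℕ) : ℝ)) * Real.sqrt (Real.log ((a + b : ℕ) : ℝ)) =
      Real.log ((a + b : ℕ) : ℝ) := Real.mul_self_sqrt hl.le
  have h2 : (-η * Real.sqrt (Real.log ((a + b : ℕ) : ℝ)) - K / Real.sqrt (Real.log ((a + b : ℕ) : ℝ))) *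
      Real.sqrt (Real.log ((a + b : ℕ) : ℝ)) = -η * Real.log ((a + b : ℕ) : ℝ) - K := by
    rw [sub_mul, div_mul_cancel₀ _ hs.ne', mul_assoc, hss]
  rw [h2]
  linarith

open Classical in
/-- **Theorem.** (1) For all sequences `v ≥ 1` of exponent of convergence at most `τ ≥ 0`, all `A ≥ 1`, `0 ≤ θ < 1`,
`0 ≤ η < 7 / 9` and `K` there is a set `E` of Hausdorff dimension at most `(A f(η) + τ) / (1 - θ)` such that for each
`α > 0` outside `E` and all but finitely many `n` all the integers `m` with `|m - α v_n| ≤ v_n ^ θ` are `Good A η K`.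
(2) The sequences `v_n = (n + 1) ^ κ` and `v_n = b ^ n` have exponent of convergence at most `1 / κ` and `0`.
(3) For all `κ > 1`, `A ≥ 1` and `0 ≤ η < 7 / 9` with `A f(η) < 1` and all `K` there is a set `E` of dimension less than
one such that for each `α > 0` outside `E` there is `δ > 0` such that for all large `N` all but at most `N ^ (1 - δ)`
of the integers `⌊α n ^ κ⌋`, `n ≤ N`, are `Good A η K`. -/
theorem result :
    (∀ (v : ℕ → ℝ) (τ A θ η K : ℝ), (∀ n, 1 ≤ v n) → 0 ≤ τ → ExpLe v τ → 1 ≤ A → 0 ≤ θ → θ < 1 → 0 ≤ η → η < 7 / 9 →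
      ∃ E : Set ℝ, dimH E ≤ ENNReal.ofReal ((A * f η + τ) / (1 - θ)) ∧ ∀ α : ℝ, 0 < α → α ∉ E →
        ∃ n₀ : ℕ, ∀ n : ℕ, n₀ ≤ n → ∀ m : ℕ, |(m : ℝ) - α * v n| ≤ (v n) ^ θ → Good A η K m) ∧
    (∀ κ : ℝ, 0 < κ → ExpLe (fun n : ℕ => ((n : ℝ) + 1) ^ κ) (1 / κ)) ∧
    (∀ b : ℝ, 1 < b → ExpLe (fun n : ℕ => b ^ n) 0) ∧
    (∀ κ A η K : ℝ, 1 < κ → 1 ≤ A → 0 ≤ η → η < 7 / 9 → A * f η < 1 →
      ∃ E : Set ℝ, dimH E < 1 ∧ ∀ α : ℝ, 0 < α → α ∉ E →
      ∃ δ : ℝ, 0 < δ ∧ δ < 1 ∧ ∃ N₀ : ℕ, ∀ N : ℕ, N₀ ≤ N →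
        (((Icc 1 N).filter (fun n : ℕ => ¬ Good A η K ⌊α * (n : ℝ) ^ κ⌋₊)).card : ℝ) ≤ (N : ℝ) ^ (1 - δ)) := by
  refine ⟨fun v τ A θ η K hv hτ hE hA hθ hθ1 hη hη1 => ?_, fun κ hκ => Pool.Agent.Y854.GM.expLe_pow κ hκ,
    fun b hb => Pool.Agent.Y854.GM.expLe_geom b hb, fun κ A η K hκ hA hη hη1 hAf => ?_⟩
  · obtain ⟨E, h1, h2⟩ := Pool.Agent.Y854.AB.win (Real.exp K) (1 + η) A (by linarith) (by linarith) hv hτ hE hθ1
    rw [Fx_eq η hη hη1] at h1
    refine ⟨E, h1, fun α hα hαE => ?_⟩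
    obtain ⟨n₀, hn⟩ := h2 α hα hαE
    exact ⟨n₀, fun n hn1 m hm => good_of A η K _ (hn n hn1 m hm).2⟩
  · set ξ : ℝ := (1 - A * f η) / 2 with hξ
    have hξ0 : 0 < ξ := by rw [hξ]; linarith
    obtain ⟨C, hC⟩ := Pool.Agent.Y854.AB.count (Real.exp K) (1 + η) A (by linarith) (by linarith) ξ hξ0
    obtain ⟨E, hE, h⟩ := Pool.Agent.Y854.GM.sets_pow κ hκ
      (fun _ : Unit => Pool.Agent.Y854.AB.Bad (Real.exp K) (1 + η) A)
    refine ⟨E, hE, fun α hα hαE => ?_⟩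
    obtain ⟨δ, hδ, hδ1, N₀, hN⟩ := h α hα hαE () ξ C hξ0 ⟨1, fun X hX => by
      have h1 := hC X hX
      rw [Fx_eq η hη hη1, show A * f η + ξ = 1 - ξ by rw [hξ]; ring] at h1
      exact h1⟩
    refine ⟨δ, hδ, hδ1, N₀, fun N hNN => le_trans ?_ (hN N hNN)⟩
    have hsub : (Icc 1 N).filter (fun n : ℕ => ¬ Good A η K ⌊α * (n : ℝ) ^ κ⌋₊) ⊆
        (Icc 1 N).filter (fun n : ℕ => ⌊α * (n : ℝ) ^ κ⌋₊ ∈ Pool.Agent.Y854.AB.Bad (Real.exp K) (1 + η) A) := by
      intro n hn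
      rw [mem_filter] at hn ⊢
      refine ⟨hn.1, ?_⟩
      by_contra hcon
      exact hn.2 (good_of A η K _ hcon)
    exact_mod_cast Finset.card_le_card hsub

end Pool.Agent.Results.MP_4ab349_nt.SequenceMembers
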